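import Pool.Agent.Y508.FP.Stm

set_option autoImplicit false

/-! Majorization of closed polygons. -/

namespace Pool.Agent.Y344.FP

open Metric Set Filter Topology
open Pool.Agent.Y508 Pool.Agent.Y508.FP

theorem nrm {E : Type*} [NormedAddCommGroup E] [InnerProductSpace ℝ E] (ν e u : E)
    (hν : ‖ν‖ = 1) (h1 : inner ℝ ν u = (0 : ℝ)) (h2 : inner ℝ e ν = (0 : ℝ)) (r f g : ℝ) :
    ‖u - (r ^ 2 / 2 * g) • e + (r * f) • ν‖ ^ 2 = ‖u‖ ^ 2 + r ^ 2 * (f ^ 2 - g * inner ℝ e u) +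
      (r ^ 2) ^ 2 * (g ^ 2 * ‖e‖ ^ 2 / 4) := by
  rw [norm_add_sq_real, norm_sub_sq_real, inner_sub_left, inner_smul_right, inner_smul_right,
    inner_smul_right, inner_smul_left, norm_smul, norm_smul, h2, hν, mul_pow, mul_pow,
    Real.norm_eq_abs, Real.norm_eq_abs, sq_abs, sq_abs, real_inner_comm ν u, h1,
    real_inner_comm e u]
  simp only [mul_zero, sub_zero, add_zero]
  ring

theorem incr (P : Finset (ℕ × ℕ)) (D q ρ X : ℕ × ℕ → ℝ) (M η : ℝ) (hq : ∀ p ∈ P, 0 ≤ q p)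
    (hpos : ∀ p ∈ P, 0 < D p - X p + η) (hex : ∃ p ∈ P, 0 < q p) :
    ∃ s : ℝ, 0 < s ∧ (∏ p ∈ P, max 0 (D p - X p + η)) <
      ∏ p ∈ P, max 0 ((D p + s * q p + s ^ 2 * ρ p) / (1 + M * s ^ 2) - X p + η) := by
  obtain ⟨A, hA⟩ : ∃ A : ℕ × ℕ → ℝ → ℝ, ∀ p s, A p s =
    (D p + s * q p + s ^ 2 * ρ p) / (1 + M * s ^ 2) - X p + η := ⟨_, fun _ _ => rfl⟩
  have hA0 : ∀ p, A p 0 = D p - X p + η := by
    intro p
    rw [hA]
    norm_num
  have hid : HasDerivAt (fun s : ℝ => s) 1 0 := hasDerivAt_id' 0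
  have hsq : HasDerivAt (fun s : ℝ => s ^ 2) 0 0 := by simpa using hasDerivAt_pow 2 (0 : ℝ)
  have hd : ∀ p, HasDerivAt (A p) (q p) 0 := by
    intro p
    have h1 : HasDerivAt (fun s : ℝ => D p + s * q p + s ^ 2 * ρ p) (q p) 0 :=
      (((hid.mul_const (q p)).const_add (D p)).fun_add (hsq.mul_const (ρ p))).congr_deriv (by ring)
    have h2 : HasDerivAt (fun s : ℝ => 1 + M * s ^ 2) 0 0 :=
      ((hsq.const_mul M).const_add 1).congr_deriv (by ring)
    have h3 := ((h1.fun_div h2 (by norm_num)).sub_const (X p)).add_const η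
    have h4 : A p = fun s : ℝ => (D p + s * q p + s ^ 2 * ρ p) / (1 + M * s ^ 2) - X p + η := by
      funext s
      exact hA p s
    rw [h4]
    exact h3.congr_deriv (by norm_num)
  have hG : HasDerivAt (fun s => ∏ p ∈ P, A p s) (∑ p ∈ P, (∏ j ∈ P.erase p, A j 0) • q p) 0 :=
    HasDerivAt.fun_finsetProd fun p _ => hd p
  have hG' : 0 < ∑ p ∈ P, (∏ j ∈ P.erase p, A j 0) • q p := by
    have hpr : ∀ p, 0 < ∏ j ∈ P.erase p, A j 0 := fun p => Finset.prod_pos fun j hj => by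
      rw [hA0]
      exact hpos j (Finset.mem_of_mem_erase hj)
    obtain ⟨p0, hp0, hp1⟩ := hex
    refine Finset.sum_pos' (fun p hp => ?_) ⟨p0, hp0, ?_⟩
    · exact mul_nonneg (hpr p).le (hq p hp)
    · exact mul_pos (hpr p0) hp1
  have e1 : ∀ᶠ s in 𝓝[>] (0 : ℝ), (∏ p ∈ P, A p 0) < ∏ p ∈ P, A p s := by
    have h1 := (hasDerivAt_iff_tendsto_slope.1 hG).eventually (lt_mem_nhds hG')
    have h2 : 𝓝[>] (0 : ℝ) ≤ 𝓝[≠] (0 : ℝ) := nhdsWithin_mono _ fun s hs => ne_of_gt hs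
    filter_upwards [h2 h1, self_mem_nhdsWithin] with s hs hs0
    rw [slope_def_field] at hs
    have hs0' : (0 : ℝ) < s := hs0
    have h3 : 0 < s - 0 := by simpa using hs0'
    have h4 := (div_pos_iff_of_pos_right h3).1 hs
    linarith
  have e2 : ∀ᶠ s in 𝓝[>] (0 : ℝ), ∀ p ∈ P, 0 < A p s := by
    rw [Filter.eventually_all_finset]
    intro p hp
    have h1 : ContinuousAt (A p) 0 := (hd p).continuousAt
    have h2 : 0 < A p 0 := by rw [hA0]; exact hpos p hp
    exact nhdsWithin_le_nhds (h1.eventually (lt_mem_nhds h2))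
  obtain ⟨s, hs1, hs2, hs3⟩ := (e1.and (e2.and self_mem_nhdsWithin)).exists
  refine ⟨s, hs3, ?_⟩
  have h5 : ∏ p ∈ P, max 0 (D p - X p + η) = ∏ p ∈ P, A p 0 := by
    refine Finset.prod_congr rfl fun p hp => ?_
    rw [hA0]
    exact max_eq_right (hpos p hp).le
  have h6 : ∏ p ∈ P, max 0 ((D p + s * q p + s ^ 2 * ρ p) / (1 + M * s ^ 2) - X p + η) =
      ∏ p ∈ P, A p s := by
    refine Finset.prod_congr rfl fun p hp => ?_
    rw [← hA]
    exact max_eq_right (hs2 p hp).le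
  rw [h5, h6]
  exact hs1

/-- a unit vector orthogonal to few vectors -/
theorem exists_normal {N n : ℕ} (hn : 1 ≤ n) (hnN : n ≤ N) (y : ℕ → EuclideanSpace ℝ (Fin N))
    (hy : y 0 = 0) :
    ∃ ν : EuclideanSpace ℝ (Fin N), ‖ν‖ = 1 ∧ ∀ i < n, inner ℝ ν (y i) = (0 : ℝ) := by
  classical
  obtain ⟨K, hK⟩ : ∃ K : Submodule ℝ (EuclideanSpace ℝ (Fin N)),
      K = Submodule.span ℝ (((Finset.Ico 1 n).image y : Finset _) : Set _) := ⟨_, rfl⟩
  have h1 : Module.finrank ℝ K ≤ n - 1 := by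
    rw [hK]
    refine (finrank_span_finset_le_card _).trans (Finset.card_image_le.trans ?_)
    rw [Nat.card_Ico]
  have h2 : K ≠ ⊤ := by
    intro h
    rw [h, finrank_top, finrank_euclideanSpace, Fintype.card_fin] at h1
    omega
  have h3 : Kᗮ ≠ ⊥ := by
    intro h
    exact h2 ((Submodule.orthogonal_eq_bot_iff).1 h)
  obtain ⟨u, hu, hu0⟩ := Submodule.exists_mem_ne_zero_of_ne_bot h3
  have hu1 : 0 < ‖u‖ := norm_pos_iff.2 hu0
  refine ⟨(‖u‖)⁻¹ • u, ?_, fun i hi => ?_⟩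
  · rw [norm_smul, norm_inv, norm_norm, inv_mul_cancel₀ hu1.ne']
  · rw [inner_smul_left]
    rcases Nat.eq_zero_or_pos i with h0 | h0
    · rw [h0, hy, inner_zero_right, mul_zero]
    · have h4 : y i ∈ K := by
        rw [hK]
        refine Submodule.subset_span ?_
        rw [Finset.mem_coe, Finset.mem_image]
        exact ⟨i, Finset.mem_Ico.2 ⟨h0, hi⟩, rfl⟩
      rw [(Submodule.mem_orthogonal' K u).1 hu _ h4, mul_zero]

theorem maj (h : AltStm) : MajStm := by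
  intro n N hn hnN x η hη
  obtain ⟨P, hP⟩ : ∃ P : Finset (ℕ × ℕ), P = (Finset.range n ×ˢ Finset.range n).filter
    (fun p : ℕ × ℕ => p.1 + 1 < p.2 ∧ ¬ (p.1 = 0 ∧ p.2 + 1 = n)) := ⟨_, rfl⟩
  have hPm : ∀ p ∈ P, p.1 < n ∧ p.2 < n := by
    intro p hp
    rw [hP, Finset.mem_filter, Finset.mem_product, Finset.mem_range, Finset.mem_range] at hp
    exact hp.1
  obtain ⟨X, hX⟩ : ∃ X : Set (ℕ → EuclideanSpace ℝ (Fin N)), X = {y | y 0 = 0 ∧
    (∀ i, i + 1 < n → dist (y i) (y (i + 1)) ≤ dist (x i) (x (i + 1))) ∧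
    dist (y (n - 1)) (y 0) ≤ dist (x (n - 1)) (x 0) ∧ ∀ i, n ≤ i → y i = 0} := ⟨_, rfl⟩
  obtain ⟨Φ, hΦ⟩ : ∃ Φ : (ℕ → EuclideanSpace ℝ (Fin N)) → ℝ, ∀ y, Φ y =
    ∏ p ∈ P, max 0 (dist (y p.1) (y p.2) ^ 2 - dist (x p.1) (x p.2) ^ 2 + η) := ⟨_, fun _ => rfl⟩
  have hcl : IsClosed X := by
    have h1 : X = {y | y 0 = 0} ∩ ((⋂ i, ⋂ (_ : i + 1 < n),
        {y | dist (y i) (y (i + 1)) ≤ dist (x i) (x (i + 1))}) ∩
        ({y | dist (y (n - 1)) (y 0) ≤ dist (x (n - 1)) (x 0)} ∩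
        ⋂ i, ⋂ (_ : n ≤ i), {y | y i = 0})) := by
      rw [hX]
      ext y
      simp only [mem_inter_iff, mem_iInter, mem_ofPred_eq]
    rw [h1]
    refine (isClosed_eq (continuous_apply 0) continuous_const).inter (IsClosed.inter ?_
      (IsClosed.inter ?_ ?_))
    · exact isClosed_iInter fun i => isClosed_iInter fun _ =>
        isClosed_le ((continuous_apply i).dist (continuous_apply (i + 1))) continuous_const
    · exact isClosed_le ((continuous_apply (n - 1)).dist (continuous_apply 0)) continuous_const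
    · exact isClosed_iInter fun i => isClosed_iInter fun _ =>
        isClosed_eq (continuous_apply i) continuous_const
  obtain ⟨R, hR⟩ : ∃ R : ℝ, R = ∑ j ∈ Finset.range n, dist (x j) (x (j + 1)) := ⟨_, rfl⟩
  have hR0 : 0 ≤ R := by rw [hR]; exact Finset.sum_nonneg fun _ _ => dist_nonneg
  have hbd : X ⊆ Set.pi univ (fun _ => closedBall (0 : EuclideanSpace ℝ (Fin N)) R) := by
    intro y hy i _
    rw [hX] at hy
    obtain ⟨h0, h1, -, h3⟩ := hy
    rw [mem_closedBall, dist_zero_right]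
    rcases Nat.lt_or_ge i n with hi | hi
    · have h4 : ∀ i, i < n → ‖y i‖ ≤ ∑ j ∈ Finset.range i, dist (x j) (x (j + 1)) := by
        intro i
        induction i with
        | zero => intro _; rw [h0, norm_zero]; exact Finset.sum_nonneg fun _ _ => dist_nonneg
        | succ i ih =>
          intro hi
          rw [Finset.sum_range_succ]
          have h5 := ih (by omega)
          have h6 := h1 i hi
          have h7 : ‖y (i + 1)‖ ≤ ‖y i‖ + dist (y i) (y (i + 1)) := by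
            rw [dist_comm, dist_eq_norm]
            have := norm_add_le (y i) (y (i + 1) - y i)
            rwa [add_sub_cancel] at this
          linarith
      refine (h4 i hi).trans ?_
      rw [hR]
      exact Finset.sum_le_sum_of_subset_of_nonneg
        (Finset.range_subset_range.2 hi.le) fun _ _ _ => dist_nonneg
    · rw [h3 i hi, norm_zero]; exact hR0
  have hcpt : IsCompact X :=
    (isCompact_univ_pi fun _ => isCompact_closedBall _ R).of_isClosed_subset hcl hbd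
  have hcont : Continuous Φ := by
    have h1 : Φ = fun y => ∏ p ∈ P,
        max 0 (dist (y p.1) (y p.2) ^ 2 - dist (x p.1) (x p.2) ^ 2 + η) := funext hΦ
    rw [h1]
    refine continuous_finsetProd _ fun p _ => ?_
    exact continuous_const.max (((((continuous_apply p.1).dist (continuous_apply p.2)).pow 2).sub
      continuous_const).add continuous_const)
  -- the given polygon
  obtain ⟨x', hx'⟩ : ∃ x' : ℕ → EuclideanSpace ℝ (Fin N), ∀ i, x' i =
    if i < n then x i - x 0 else 0 := ⟨_, fun _ => rfl⟩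
  have hxd : ∀ i j, i < n → j < n → dist (x' i) (x' j) = dist (x i) (x j) := by
    intro i j hi hj
    rw [hx', hx', if_pos hi, if_pos hj, dist_sub_right]
  have hx'X : x' ∈ X := by
    rw [hX]
    refine ⟨?_, fun i hi => (hxd i (i + 1) (by omega) hi).le, (hxd _ _ (by omega) (by omega)).le,
      fun i hi => ?_⟩
    · rw [hx', if_pos (by omega), sub_self]
    · rw [hx', if_neg (by omega)]
  have hx'Φ : 0 < Φ x' := by
    rw [hΦ]
    refine Finset.prod_pos fun p hp => ?_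
    obtain ⟨h1, h2⟩ := hPm p hp
    rw [hxd _ _ h1 h2, sub_self, zero_add]
    exact lt_max_of_lt_right hη
  obtain ⟨y, hyX, hymax⟩ := hcpt.exists_isMaxOn ⟨x', hx'X⟩ hcont.continuousOn
  have hyΦ : 0 < Φ y := lt_of_lt_of_le hx'Φ (hymax hx'X)
  have hyX' := hyX
  rw [hX] at hyX'
  obtain ⟨hy0, hy1, hy2, hy3⟩ := hyX'
  have harg : ∀ p ∈ P, 0 < dist (y p.1) (y p.2) ^ 2 - dist (x p.1) (x p.2) ^ 2 + η := by
    intro p hp
    by_contra hcon
    rw [not_lt] at hcon
    have hz : Φ y = 0 := by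
      rw [hΦ]
      exact Finset.prod_eq_zero hp (max_eq_left hcon)
    rw [hz] at hyΦ
    exact lt_irrefl _ hyΦ
  refine ⟨y, ?_, hy1, hy2, fun i j hij hj hne => ?_⟩
  swap
  · have h1 : (i, j) ∈ P := by
      rw [hP, Finset.mem_filter, Finset.mem_product, Finset.mem_range, Finset.mem_range]
      exact ⟨⟨by simp only; omega, hj⟩, hij, hne⟩
    have h2 := harg _ h1
    simp only at h2
    linarith
  -- no alternation
  intro e a b c d t hab hbc hcd hdn h1 h2 h3 h4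
  obtain ⟨f, g, C, hC, hE, hE0, hE0', hall, i0, j0, hi0, hj0, hne0, hst⟩ :=
    h n (fun i => inner ℝ e (y i)) a b c d hab hbc hcd hdn (h1.trans h2) (h3.trans h2)
      (h3.trans h4) (h1.trans h4)
  obtain ⟨ν, hν, hνy⟩ := exists_normal hn hnN y hy0
  obtain ⟨e', he'⟩ : ∃ e' : EuclideanSpace ℝ (Fin N), e' = e - (inner ℝ ν e : ℝ) • ν := ⟨_, rfl⟩
  have he'ν : inner ℝ e' ν = (0 : ℝ) := by
    rw [he', inner_sub_left, inner_smul_left, real_inner_self_eq_norm_sq, hν, real_inner_comm]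
    simp
  have he'y : ∀ i < n, inner ℝ e' (y i) = (inner ℝ e (y i) : ℝ) := by
    intro i hi
    rw [he', inner_sub_left, inner_smul_left, hνy i hi, mul_zero, sub_zero]
  obtain ⟨M, hM⟩ : ∃ M : ℝ, M = C ^ 2 * ‖e'‖ ^ 4 / 4 := ⟨_, rfl⟩
  have hM0 : 0 ≤ M := by rw [hM]; positivity
  obtain ⟨D, hD⟩ : ∃ D : ℕ × ℕ → ℝ, ∀ p, D p = dist (y p.1) (y p.2) ^ 2 := ⟨_, fun _ => rfl⟩
  obtain ⟨q, hq⟩ : ∃ q : ℕ × ℕ → ℝ, ∀ p, q p = (f p.1 - f p.2) ^ 2 -
    (inner ℝ e (y p.1) - inner ℝ e (y p.2)) * (g p.1 - g p.2) := ⟨_, fun _ => rfl⟩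
  obtain ⟨ρ, hρ⟩ : ∃ ρ : ℕ × ℕ → ℝ, ∀ p, ρ p = (g p.1 - g p.2) ^ 2 * ‖e'‖ ^ 2 / 4 :=
    ⟨_, fun _ => rfl⟩
  obtain ⟨s, hs0, hs⟩ := incr P D q ρ (fun p => dist (x p.1) (x p.2) ^ 2) M η
    (fun p hp => by
      rw [hq]
      have := hall p.1 (hPm p hp).1 p.2 (hPm p hp).2
      linarith)
    (fun p hp => by rw [hD]; exact harg p hp)
    ⟨(i0, j0), by
      rw [hP, Finset.mem_filter, Finset.mem_product, Finset.mem_range, Finset.mem_range]
      exact ⟨⟨by simp only; omega, hj0⟩, hi0, hne0⟩, by rw [hq]; simp only; linarith⟩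
  -- the deformed polygon
  obtain ⟨k, hk⟩ : ∃ k : ℝ, k = (Real.sqrt (1 + M * s ^ 2))⁻¹ := ⟨_, rfl⟩
  have hpos1 : 0 < 1 + M * s ^ 2 := by positivity
  have hk2 : k ^ 2 = (1 + M * s ^ 2)⁻¹ := by
    rw [hk, inv_pow, Real.sq_sqrt hpos1.le]
  obtain ⟨w, hw⟩ : ∃ w : ℕ → EuclideanSpace ℝ (Fin N), ∀ i, w i =
    if i < n then k • (y i - (Real.sqrt s ^ 2 / 2 * (g i - g 0)) • e' +
      (Real.sqrt s * (f i - f 0)) • ν) else 0 := ⟨_, fun _ => rfl⟩
  have hwd : ∀ i j, i < n → j < n → dist (w i) (w j) ^ 2 =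
      (D (i, j) + s * q (i, j) + s ^ 2 * ρ (i, j)) / (1 + M * s ^ 2) := by
    intro i j hi hj
    have h5 : w i - w j = k • ((y i - y j) - (Real.sqrt s ^ 2 / 2 * (g i - g j)) • e' +
        (Real.sqrt s * (f i - f j)) • ν) := by
      rw [hw, hw, if_pos hi, if_pos hj, ← smul_sub]
      congr 1
      module
    rw [dist_eq_norm, h5, norm_smul, mul_pow, Real.norm_eq_abs, sq_abs, hk2,
      nrm ν e' (y i - y j) hν (by rw [inner_sub_right, hνy i hi, hνy j hj, sub_zero]) he'ν,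
      Real.sq_sqrt hs0.le, inner_sub_right, he'y i hi, he'y j hj, hD, hq, hρ, dist_eq_norm]
    simp only
    rw [div_eq_inv_mul]
    ring
  have hedge : ∀ i j, i < n → j < n → q (i, j) = 0 →
      |g i - g j| ≤ C * |inner ℝ e (y i) - inner ℝ e (y j)| → dist (w i) (w j) ≤ dist (y i) (y j) := by
    intro i j hi hj hq0 hg
    have h5 : dist (w i) (w j) ^ 2 ≤ dist (y i) (y j) ^ 2 := by
      rw [hwd i j hi hj, hq0, mul_zero, add_zero, div_le_iff₀ hpos1, hD, hρ]
      simp only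
      have h6 : |(inner ℝ e (y i) - inner ℝ e (y j) : ℝ)| ≤ ‖e'‖ * dist (y i) (y j) := by
        rw [← he'y i hi, ← he'y j hj, ← inner_sub_right, dist_eq_norm]
        exact abs_real_inner_le_norm _ _
      have h7 : |g i - g j| ≤ C * (‖e'‖ * dist (y i) (y j)) :=
        hg.trans (mul_le_mul_of_nonneg_left h6 hC)
      have h8 : (g i - g j) ^ 2 ≤ (C * (‖e'‖ * dist (y i) (y j))) ^ 2 := by
        rw [← sq_abs]
        exact pow_le_pow_left₀ (abs_nonneg _) h7 2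
      have h9 : (g i - g j) ^ 2 * ‖e'‖ ^ 2 / 4 ≤ M * dist (y i) (y j) ^ 2 := by
        rw [hM]
        have := mul_le_mul_of_nonneg_right h8 (sq_nonneg ‖e'‖)
        nlinarith
      have h10 := mul_le_mul_of_nonneg_left h9 (sq_nonneg s)
      nlinarith
    exact (pow_le_pow_iff_left₀ dist_nonneg dist_nonneg two_ne_zero).1 h5
  have hwX : w ∈ X := by
    rw [hX]
    refine ⟨?_, fun i hi => ?_, ?_, fun i hi => ?_⟩
    · rw [hw, if_pos (by omega), hy0, sub_self, sub_self, mul_zero, mul_zero, zero_smul, zero_smul,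
        sub_zero, add_zero, smul_zero]
    · refine (hedge i (i + 1) (by omega) hi ?_ ?_).trans (hy1 i hi)
      · rw [hq]
        simp only
        have := (hE i hi).1
        linarith
      · have := (hE i hi).2
        rw [abs_sub_comm (g i), abs_sub_comm (inner ℝ e (y i) : ℝ)]
        exact this
    · refine (hedge (n - 1) 0 (by omega) (by omega) ?_ ?_).trans hy2
      · rw [hq]
        simp only
        linarith
      · rw [abs_sub_comm (g (n - 1)), abs_sub_comm (inner ℝ e (y (n - 1)) : ℝ)]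
        exact hE0'
    · rw [hw, if_neg (by omega)]
  have hcon : Φ w ≤ Φ y := hymax hwX
  have e1 : Φ y = ∏ p ∈ P, max 0 (D p - dist (x p.1) (x p.2) ^ 2 + η) := by
    rw [hΦ]
    exact Finset.prod_congr rfl fun p _ => by rw [hD]
  have e2 : Φ w = ∏ p ∈ P, max 0 ((D p + s * q p + s ^ 2 * ρ p) / (1 + M * s ^ 2) -
      dist (x p.1) (x p.2) ^ 2 + η) := by
    rw [hΦ]
    refine Finset.prod_congr rfl fun p hp => ?_
    rw [hwd p.1 p.2 (hPm p hp).1 (hPm p hp).2]
  rw [e1, e2] at hcon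
  exact absurd hs (not_lt.2 hcon)

end Pool.Agent.Y344.FP
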